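import Pool.Agent.Y862.SQ.Stm3
import Pool.Agent.Y87.SQ.LawK
import Pool.Agent.H373R2.T7.FundC

set_option autoImplicit false

/-!
Project SQ3 (helper862), statement PK: the joint Poisson law at primes, all windows (adapted from the proof of
S_LAWK by helper87).
-/

namespace Pool.Agent.Y809.SQ3

open Finset Filter
open Pool.Agent.Y862.SQ
open Pool.Agent.Y810.SQ (mem_pr V1_pos V1_bounds level_low logpow_rpow)
open Pool.Agent.Y87.SQ (card_diff win_mono)
open Pool.Agent.H373R2.T7 (pz rhoA PerA lam_fund pnt_lam lam1 lam1_eq)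

/-- a product over distinct integers -/
lemma prod_dist (S : Finset ℕ) (h : ∀ p ∈ S, 2 ≤ p) :
    ∏ p ∈ S, (1 - 1 / (p : ℝ))⁻¹ ≤ S.card + 1 := by
  induction S using Finset.induction_on_max with
  | empty => simp
  | insert m S hm ih =>
    have hmS : m ∉ S := fun hh => lt_irrefl _ (hm m hh)
    rw [prod_insert hmS, card_insert_of_notMem hmS]
    have ih' := ih (fun p hp => h p (mem_insert_of_mem hp))
    have hm2 : S.card + 2 ≤ m := by
      have h1 : S ⊆ Ico 2 m := fun p hp => mem_Ico.2 ⟨h p (mem_insert_of_mem hp), hm p hp⟩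
      have h2 := card_le_card h1
      have h3 := h m (mem_insert_self m S)
      rw [Nat.card_Ico] at h2
      omega
    have hmr : (S.card : ℝ) + 2 ≤ m := by exact_mod_cast hm2
    have hS0 : (0 : ℝ) ≤ S.card := Nat.cast_nonneg _
    have hm0 : (0 : ℝ) < m := by linarith
    have e1 : (1 - 1 / (m : ℝ)) = (m - 1) / m := by field_simp
    have h4 : (1 - 1 / (m : ℝ))⁻¹ ≤ ((S.card : ℝ) + 2) / (S.card + 1) := by
      rw [e1, inv_div, div_le_div_iff₀ (by linarith) (by linarith)]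
      nlinarith
    have h6 : 0 ≤ ∏ p ∈ S, (1 - 1 / (p : ℝ))⁻¹ := by
      refine prod_nonneg fun p hp => inv_nonneg.2 ?_
      have : (2 : ℝ) ≤ p := by exact_mod_cast h p (mem_insert_of_mem hp)
      rw [sub_nonneg, div_le_one (by linarith)]
      linarith
    calc (1 - 1 / (m : ℝ))⁻¹ * ∏ p ∈ S, (1 - 1 / (p : ℝ))⁻¹ ≤
        ((S.card : ℝ) + 2) / (S.card + 1) * (S.card + 1) :=
          mul_le_mul h4 ih' h6 (by positivity)
      _ = ((S.card + 1 : ℕ) : ℝ) + 1 := by push_cast; field_simp; ring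

open Classical in
lemma rho_le' (Q : ℕ → ℕ → Prop) (p : ℕ) (h : ∀ r < p, ∀ r' < p, Q p r → Q p r' → r = r') : rhoA Q p ≤ 1 := by
  unfold rhoA
  refine card_le_one.2 fun r hr r' hr' => ?_
  have hr := mem_filter.1 hr
  have hr' := mem_filter.1 hr'
  exact h r (mem_range.1 hr.1) r' (mem_range.1 hr'.1) hr.2.2 hr'.2.2

open Classical in
lemma rho_pos' (Q : ℕ → ℕ → Prop) (p : ℕ) (h : ∃ r < p, ¬ p ∣ r ∧ Q p r) : 1 ≤ rhoA Q p := by
  unfold rhoA
  obtain ⟨r, hr, hQ⟩ := h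
  exact card_pos.2 ⟨r, mem_filter.2 ⟨mem_range.2 hr, hQ⟩⟩

lemma rho_le (b p : ℕ) : rhoA (fun p n => p ∣ n + b) p ≤ 1 := by
  refine rho_le' _ p fun r hr r' hr' hd hd' => ?_
  have h1 : r + b ≡ r' + b [MOD p] :=
    ((Nat.modEq_zero_iff_dvd).2 hd).trans ((Nat.modEq_zero_iff_dvd).2 hd').symm
  have h2 : r ≡ r' [MOD p] := Nat.ModEq.add_right_cancel' b h1
  rw [Nat.ModEq, Nat.mod_eq_of_lt hr, Nat.mod_eq_of_lt hr'] at h2
  exact h2

lemma rho_eq (b p : ℕ) (hp : p.Prime) (hb : ¬ p ∣ b) : rhoA (fun p n => p ∣ n + b) p = 1 := by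
  refine le_antisymm (rho_le b p) (rho_pos' _ p ?_)
  have h1 : b % p < p := Nat.mod_lt _ hp.pos
  have h2 : 0 < b % p := Nat.pos_of_ne_zero fun h => hb (Nat.dvd_of_mod_eq_zero h)
  refine ⟨p - b % p, by omega, ?_, ?_⟩
  · intro hd
    have := Nat.le_of_dvd (by omega) hd
    omega
  · have h3 : p - b % p + b = p + p * (b / p) := by
      have := Nat.mod_add_div b p
      omega
    rw [h3]
    exact (dvd_refl p).add (dvd_mul_right _ _)

lemma perA (b : ℕ) : PerA (fun p n => p ∣ n + b) 1 := by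
  refine ⟨fun p n => ?_, fun p _ => rho_le b p⟩
  have h1 : n % p + b ≡ n + b [MOD p] := (Nat.mod_modEq n p).add_right _
  exact (h1.dvd_iff dvd_rfl).symm

lemma prod_rho_nonneg (y b : ℕ) :
    ∀ p ∈ pz y, 0 ≤ (1 - (rhoA (fun p n => p ∣ n + b) p : ℝ) / (p - 1 : ℝ)) := by
  intro p hp
  have hp' : p.Prime := (mem_filter.1 hp).2
  have h2 : (2 : ℝ) ≤ p := by exact_mod_cast hp'.two_le
  have h3 : (rhoA (fun p n => p ∣ n + b) p : ℝ) ≤ 1 := by exact_mod_cast rho_le b p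
  rw [sub_nonneg, div_le_one (by linarith)]
  linarith

/-- the product of the local factors -/
lemma prod_rho (y b : ℕ) (hb : 1 ≤ b) {w : ℝ} (hw : 1 ≤ w) (hbq : (b : ℝ) ≤ 2 * w ^ 4) :
    ∏ p ∈ pz y, (1 - (rhoA (fun p n => p ∣ n + b) p : ℝ) / (p - 1 : ℝ)) ≤ V1 y * (10 * w) := by
  classical
  have h1 : ∏ p ∈ pz y, (1 - (rhoA (fun p n => p ∣ n + b) p : ℝ) / (p - 1 : ℝ)) ≤
      ∏ p ∈ pz y, ((1 - 1 / (p : ℝ)) * (if p ∣ b then (1 - 1 / (p : ℝ))⁻¹ else 1)) := by
    refine prod_le_prod (prod_rho_nonneg y b) fun p hp => ?_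
    have hp' : p.Prime := (mem_filter.1 hp).2
    have h2 : (2 : ℝ) ≤ p := by exact_mod_cast hp'.two_le
    split_ifs with hd
    · rw [mul_inv_cancel₀]
      · rw [sub_le_self_iff]
        exact div_nonneg (Nat.cast_nonneg _) (by linarith)
      · have : 1 / (p : ℝ) < 1 := by rw [div_lt_one (by linarith)]; linarith
        exact (sub_pos.2 this).ne'
    · rw [rho_eq b p hp' hd, mul_one, Nat.cast_one]
      have : 1 / (p : ℝ) ≤ 1 / (p - 1 : ℝ) := one_div_le_one_div_of_le (by linarith) (by linarith)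
      linarith
  refine h1.trans ?_
  rw [prod_mul_distrib, ← prod_filter]
  have e1 : ∏ p ∈ pz y, (1 - 1 / (p : ℝ)) = V1 y := rfl
  rw [e1]
  refine mul_le_mul_of_nonneg_left ?_ (V1_pos y).le
  set S := (pz y).filter (fun p => p ∣ b) with hS
  have hSp : ∀ p ∈ S, p.Prime := fun p hp => (mem_filter.1 (mem_filter.1 hp).1).2
  refine (prod_dist S fun p hp => (hSp p hp).two_le).trans ?_
  have h2 : 2 ^ S.card ≤ b := by
    calc 2 ^ S.card = ∏ _p ∈ S, 2 := by rw [prod_const]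
      _ ≤ ∏ p ∈ S, p := prod_le_prod' fun p hp => (hSp p hp).two_le
      _ ≤ b := Nat.le_of_dvd hb (prod_primes_dvd b (fun p hp => (hSp p hp).prime)
          fun p hp => (mem_filter.1 hp).2)
  have h3 : (2 : ℝ) ^ S.card ≤ 2 * w ^ 4 := by
    refine le_trans ?_ hbq
    exact_mod_cast h2
  have hw0 : 0 < w := by linarith
  have h4 := Real.log_le_log (by positivity) h3
  rw [Real.log_pow, Real.log_mul (by norm_num) (by positivity), Real.log_pow] at h4
  have h5 := Real.log_two_gt_d9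
  have h6 := Real.log_le_sub_one_of_pos hw0
  have h7 : 0 ≤ Real.log w := Real.log_nonneg hw
  push_cast at h4
  have h8 : (S.card : ℝ) ≤ 1 + 8 * (w - 1) := by
    by_contra hcon
    push Not at hcon
    have h9 : (1 + 8 * (w - 1)) * Real.log 2 < S.card * Real.log 2 :=
      mul_lt_mul_of_pos_right hcon (by linarith)
    nlinarith
  linarith

/-- primes `n` with `n + b` free of small primes -/
lemma rough_primes : ∃ K y2 : ℕ, ∀ X y : ℕ, y2 ≤ y → y ^ K ≤ X → ∀ Z Y b : ℕ, 1 ≤ X → X ≤ Z →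
    Z + Y ≤ 2 * X → ((((Ioc Z (Z + Y)).filter Nat.Prime).filter
      (fun n => ∀ p ∈ pr y, ¬ p ∣ n + b)).card : ℝ) * Real.log X ≤
      4 * X * ∏ p ∈ pz y, (1 - (rhoA (fun p n => p ∣ n + b) p : ℝ) / (p - 1 : ℝ)) +
        ((2 * X : ℕ) : ℝ) / Real.log ((2 * X : ℕ) : ℝ) ^ 3 := by
  classical
  obtain ⟨K, -, h⟩ := lam_fund 1 le_rfl 1 one_pos
  obtain ⟨x0, h⟩ := h 3
  refine ⟨K, x0, fun X y hy hyX Z Y b hX hXZ hZY => ?_⟩
  have h1 := h (2 * X) y hy (by omega) _ (perA b) (2 * X) le_rfl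
  have h2 := (abs_le.1 h1).2
  have h3 : ((((Ioc Z (Z + Y)).filter Nat.Prime).filter
      (fun n => ∀ p ∈ pr y, ¬ p ∣ n + b)).card : ℝ) * Real.log X ≤
      ∑ n ∈ (Icc 1 (2 * X)).filter (fun n : ℕ => ∀ p ∈ pz y, ¬ p ∣ n + b),
        ArithmeticFunction.vonMangoldt n := by
    rw [← nsmul_eq_mul, ← sum_const]
    refine (sum_le_sum (g := fun n => ArithmeticFunction.vonMangoldt n) fun n hn => ?_).trans
      (sum_le_sum_of_subset_of_nonneg ?_ fun n _ _ => ArithmeticFunction.vonMangoldt_nonneg)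
    · rw [mem_filter, mem_filter, mem_Ioc] at hn
      rw [ArithmeticFunction.vonMangoldt_apply_prime hn.1.2]
      refine Real.log_le_log (by exact_mod_cast hX) ?_
      exact_mod_cast (by omega : X ≤ n)
    · intro n hn
      rw [mem_filter, mem_filter, mem_Ioc] at hn
      rw [mem_filter, mem_Icc]
      exact ⟨⟨by omega, by omega⟩, hn.2⟩
  refine h3.trans ?_
  have h4 : ∑ n ∈ (Icc 1 (2 * X)).filter (fun n : ℕ => ∀ p ∈ pz y, ¬ p ∣ n + b),
        ArithmeticFunction.vonMangoldt n ≤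
      1 * (((2 * X : ℕ) : ℝ) * ∏ p ∈ pz y, (1 - (rhoA (fun p n => p ∣ n + b) p : ℝ) / (p - 1 : ℝ))) +
        ((2 * X : ℕ) : ℝ) / Real.log ((2 * X : ℕ) : ℝ) ^ 3 +
        ((2 * X : ℕ) : ℝ) * ∏ p ∈ pz y, (1 - (rhoA (fun p n => p ∣ n + b) p : ℝ) / (p - 1 : ℝ)) := by
    rw [sub_le_iff_le_add] at h2
    refine le_trans (le_of_eq ?_) h2
    congr!
  refine h4.trans (le_of_eq ?_)
  push_cast
  ring

/-- the number of primes in the interval -/
lemma primes_low (δ : ℝ) (hδ : 0 < δ) : ∃ X2 : ℕ, ∀ X : ℕ, X2 ≤ X → ∀ Z Y : ℕ, X ≤ Z →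
    Z + Y ≤ 2 * X → δ * X ≤ Y →
    δ * X / 4 ≤ (((Ioc Z (Z + Y)).filter Nat.Prime).card : ℝ) * Real.log X := by
  obtain ⟨C, N1, hC, hpnt⟩ := pnt_lam 1
  have hlogX : Tendsto (fun X : ℕ => Real.log (X : ℝ)) atTop atTop :=
    Real.tendsto_log_atTop.comp tendsto_natCast_atTop_atTop
  have hev : ∀ᶠ X : ℕ in atTop, ∀ Z Y : ℕ, X ≤ Z →
    Z + Y ≤ 2 * X → δ * X ≤ Y →
    δ * X / 4 ≤ (((Ioc Z (Z + Y)).filter Nat.Prime).card : ℝ) * Real.log X := by
    filter_upwards [hlogX.eventually_ge_atTop (32 * C / δ + 2), eventually_ge_atTop (N1 + 3),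
      (tendsto_natCast_atTop_atTop (R := ℝ)).eventually_ge_atTop (32 / δ),
      logpow_rpow 1 (48 / δ) (1 / 2) (by positivity) (by norm_num)] with X hX1 hX2 hX3 hX4
    intro Z Y hXZ hZY hY
    have hXr : (3 : ℝ) ≤ X := by exact_mod_cast (by omega : 3 ≤ X)
    have hX0 : (0 : ℝ) < X := by linarith
    have hZr : (X : ℝ) ≤ Z := by exact_mod_cast hXZ
    have hZYr : (Z : ℝ) + Y ≤ 2 * X := by exact_mod_cast hZY
    have hY0 : (0 : ℝ) ≤ Y := Nat.cast_nonneg _
    have hq0 : 0 ≤ 32 * C / δ := by positivity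
    have hL0 : 0 < Real.log X := by linarith
    have hl2 := Real.log_two_lt_d9
    -- the sum of the logarithms
    have hth : ∑ p ∈ (Ioc Z (Z + Y)).filter Nat.Prime, Real.log p =
        Chebyshev.theta ((Z + Y : ℕ) : ℝ) - Chebyshev.theta (Z : ℝ) := by
      unfold Chebyshev.theta
      rw [Nat.floor_natCast, Nat.floor_natCast, eq_sub_iff_add_eq, add_comm, sum_filter, sum_filter,
        sum_filter, ← sum_Ioc_consecutive _ (Nat.zero_le Z) (Nat.le_add_right Z Y)]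
    have hp1 := hpnt (Z + Y) (by omega)
    have hp2 := hpnt Z (by omega)
    rw [lam1_eq, pow_one] at hp1 hp2
    have hs := Chebyshev.psi_sub_theta_le (x := ((Z + Y : ℕ) : ℝ)) (by push_cast; linarith)
    have hs2 := Chebyshev.theta_le_psi (Z : ℝ)
    have hlogZY : Real.log X ≤ Real.log ((Z + Y : ℕ) : ℝ) :=
      Real.log_le_log hX0 (by push_cast; linarith)
    have hlogZ : Real.log X ≤ Real.log (Z : ℝ) := Real.log_le_log hX0 hZr
    have b1 : C * (((Z + Y : ℕ) : ℝ) / Real.log ((Z + Y : ℕ) : ℝ)) ≤ C * (2 * X / Real.log X) := by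
      refine mul_le_mul_of_nonneg_left ?_ hC.le
      exact div_le_div₀ (by positivity) (by push_cast; exact hZYr) hL0 hlogZY
    have b2 : C * ((Z : ℝ) / Real.log (Z : ℝ)) ≤ C * (2 * X / Real.log X) := by
      refine mul_le_mul_of_nonneg_left ?_ hC.le
      exact div_le_div₀ (by positivity) (by linarith) hL0 hlogZ
    have b3 : C * (2 * X / Real.log X) ≤ δ * X / 16 := by
      have e1 : 32 * C / δ ≤ Real.log X := by linarith
      rw [div_le_iff₀ hδ] at e1
      rw [mul_div_assoc', div_le_div_iff₀ hL0 (by norm_num)]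
      nlinarith
    have b4 : 4 ≤ δ * X / 8 := by
      rw [div_le_iff₀ hδ] at hX3
      linarith
    have hlog2X : Real.log ((Z + Y : ℕ) : ℝ) ≤ 2 * Real.log X := by
      calc Real.log ((Z + Y : ℕ) : ℝ) ≤ Real.log ((X : ℝ) ^ 2) :=
            Real.log_le_log (by push_cast; linarith) (by push_cast; nlinarith)
        _ = 2 * Real.log X := by rw [Real.log_pow]; norm_num
    have b5 : 2 * √(((Z + Y : ℕ) : ℝ)) * Real.log ((Z + Y : ℕ) : ℝ) ≤ δ * X / 8 := by
      have e1 : √(((Z + Y : ℕ) : ℝ)) ≤ 3 / 2 * √(X : ℝ) := by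
        rw [← Real.sqrt_sq (by norm_num : (0 : ℝ) ≤ 3 / 2), ← Real.sqrt_mul (by norm_num)]
        refine Real.sqrt_le_sqrt ?_
        push_cast
        linarith
      have e2 : 48 / δ * Real.log X ≤ √(X : ℝ) := by
        rw [Real.sqrt_eq_rpow]
        rw [pow_one] at hX4
        exact hX4
      have e3 : √(X : ℝ) * √(X : ℝ) = X := Real.mul_self_sqrt hX0.le
      have e4 : 48 * Real.log X ≤ δ * √(X : ℝ) := by
        rw [div_mul_eq_mul_div, div_le_iff₀ hδ] at e2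
        linarith
      have e5 : 0 ≤ √(X : ℝ) := Real.sqrt_nonneg _
      calc 2 * √(((Z + Y : ℕ) : ℝ)) * Real.log ((Z + Y : ℕ) : ℝ) ≤
          2 * (3 / 2 * √(X : ℝ)) * (2 * Real.log X) := by gcongr
        _ = (√(X : ℝ) * (48 * Real.log X)) / 8 := by ring
        _ ≤ (√(X : ℝ) * (δ * √(X : ℝ))) / 8 := by gcongr
        _ = δ * X / 8 := by rw [mul_left_comm, e3]
    have b6 : δ * X / 2 ≤ ∑ p ∈ (Ioc Z (Z + Y)).filter Nat.Prime, Real.log p := by
      rw [hth]
      have c1 := (abs_le.1 hp1).1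
      have c2 := (abs_le.1 hp2).2
      have c3 : ((Z + Y : ℕ) : ℝ) = Z + Y := by push_cast; ring
      rw [c3] at c1 hs b1 b5 ⊢
      linarith
    have b7 : ∑ p ∈ (Ioc Z (Z + Y)).filter Nat.Prime, Real.log p ≤
        (((Ioc Z (Z + Y)).filter Nat.Prime).card : ℝ) * (2 * Real.log X) := by
      rw [← nsmul_eq_mul]
      refine sum_le_card_nsmul _ _ _ fun p hp => ?_
      rw [mem_filter, mem_Ioc] at hp
      refine le_trans (Real.log_le_log ?_ ?_) hlog2X
      · exact_mod_cast hp.2.pos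
      · exact_mod_cast hp.1.2
    linarith
  obtain ⟨X0, hX0⟩ := eventually_atTop.1 hev
  exact ⟨X0, hX0⟩

/-- the windows with squares -/
lemma nq_eq_nj {y a L n M : ℕ} {c : ℤ} (hc : -(M : ℤ) ≤ c) (hn : M < n)
    (h : ∀ m ≤ Nat.sqrt M, 1 ≤ a + m → ¬ ∀ p ∈ pr y, ¬ p ∣ n + (a + m)) :
    Nq y a c L n = Nj y a c L n := by
  classical
  unfold Nq Nj
  congr 1
  ext s
  rw [mem_filter, mem_filter]
  refine and_congr_right fun hs => ?_
  rw [mem_Ioc] at hs
  constructor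
  · rintro ⟨hne, h1⟩
    refine ⟨fun hsq => ?_, h1⟩
    obtain ⟨t, ht⟩ := hsq
    have h2 : (t.natAbs : ℤ) * t.natAbs = -s := by
      rw [ht, Int.natAbs_mul_self']
    have h3 : t.natAbs ≤ Nat.sqrt M := by
      rw [Nat.le_sqrt]
      have : (t.natAbs : ℤ) * t.natAbs ≤ M := by rw [h2]; omega
      exact_mod_cast this
    have h5 : s = -((t.natAbs : ℤ) * t.natAbs) := by rw [h2]; ring
    have h6 : 1 ≤ a + t.natAbs := by
      by_contra hcon
      have ha : a = 0 := by omega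
      have ht0 : t.natAbs = 0 := by omega
      apply hne
      rw [h5, ha, ht0]
      push_cast
      ring
    apply h t.natAbs h3 h6
    intro p hp hpd
    apply h1 p hp
    have h4 : ((n : ℤ) + a) ^ 2 + s = ((n : ℤ) + a - t.natAbs) * ((n + (a + t.natAbs) : ℕ) : ℤ) := by
      rw [h5]
      push_cast
      ring
    rw [h4]
    exact Dvd.dvd.mul_left (by exact_mod_cast hpd) _
  · rintro ⟨hsq, h1⟩
    refine ⟨fun heq => hsq ?_, h1⟩
    rcases Nat.eq_zero_or_pos a with ha | ha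
    · refine ⟨0, ?_⟩
      rw [ha] at heq
      push_cast at heq
      linarith
    · exfalso
      have h7 : -s = 2 * (n : ℤ) * a + (a : ℤ) ^ 2 := by linear_combination -heq
      have h8 : (1 : ℤ) ≤ a := by exact_mod_cast ha
      have h9 : (M : ℤ) < n := by exact_mod_cast hn
      have h10 : (0 : ℤ) ≤ M := Int.natCast_nonneg _
      nlinarith [hs.1]

/-- the number of exceptional primes -/
lemma bad_count' {k : ℕ} (Om : Finset ℕ) (a : Fin k → ℕ) (y M : ℕ) (D : ℝ) (ha : ∀ j, a j ≤ M) (hD : 0 ≤ D)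
    (h : ∀ b : ℕ, 1 ≤ b → b ≤ 2 * M → ((Om.filter (fun n => ∀ p ∈ pr y, ¬ p ∣ n + b)).card : ℝ) ≤ D)
    [DecidablePred (fun n => ∃ j, ∃ m ≤ Nat.sqrt M, 1 ≤ a j + m ∧ ∀ p ∈ pr y, ¬ p ∣ n + (a j + m))] :
    ((Om.filter (fun n => ∃ j, ∃ m ≤ Nat.sqrt M, 1 ≤ a j + m ∧
      ∀ p ∈ pr y, ¬ p ∣ n + (a j + m))).card : ℝ) ≤ k * ((Nat.sqrt M + 1 : ℕ) * D) := by
  classical
  have h1 : (Om.filter (fun n => ∃ j, ∃ m ≤ Nat.sqrt M, 1 ≤ a j + m ∧
      ∀ p ∈ pr y, ¬ p ∣ n + (a j + m))) ⊆ (univ : Finset (Fin k)).biUnion (fun j =>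
        (range (Nat.sqrt M + 1)).biUnion (fun m => if 1 ≤ a j + m then Om.filter
          (fun n => ∀ p ∈ pr y, ¬ p ∣ n + (a j + m)) else ∅)) := by
    intro n hn
    rw [mem_filter] at hn
    obtain ⟨hn1, j, m, hm, hm1, hn2⟩ := hn
    rw [mem_biUnion]
    refine ⟨j, mem_univ _, ?_⟩
    rw [mem_biUnion]
    refine ⟨m, mem_range.2 (by omega), ?_⟩
    rw [if_pos hm1]
    exact mem_filter.2 ⟨hn1, hn2⟩
  have h2 : ((Om.filter (fun n => ∃ j, ∃ m ≤ Nat.sqrt M, 1 ≤ a j + m ∧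
      ∀ p ∈ pr y, ¬ p ∣ n + (a j + m))).card : ℝ) ≤ ((∑ j : Fin k, ∑ m ∈ range (Nat.sqrt M + 1),
        (if 1 ≤ a j + m then Om.filter (fun n => ∀ p ∈ pr y, ¬ p ∣ n + (a j + m)) else ∅).card : ℕ) : ℝ) := by
    have := (card_le_card h1).trans (card_biUnion_le.trans
      (Finset.sum_le_sum fun j _ => card_biUnion_le))
    exact_mod_cast this
  refine h2.trans ?_
  push_cast
  calc ∑ j : Fin k, ∑ m ∈ range (Nat.sqrt M + 1),
        ((if 1 ≤ a j + m then Om.filter (fun n => ∀ p ∈ pr y, ¬ p ∣ n + (a j + m)) else ∅).card : ℝ)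
      ≤ ∑ j : Fin k, ∑ m ∈ range (Nat.sqrt M + 1), D := by
        refine Finset.sum_le_sum fun j _ => Finset.sum_le_sum fun m hm => ?_
        split_ifs with hc
        · refine h _ hc ?_
          have h3 := ha j
          have h4 := mem_range.1 hm
          have h5 := Nat.sqrt_le_self M
          omega
        · rw [card_empty, Nat.cast_zero]
          exact hD
    _ = _ := by
        rw [Finset.sum_const, Finset.sum_const, card_univ, Fintype.card_fin, card_range,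
          nsmul_eq_mul, nsmul_eq_mul]
        push_cast
        ring

/-- the numerical estimate -/
lemma num_pk {k S w x1 V C1 X δ ε N LX : ℝ} (hk : 0 ≤ k) (hw : 0 < w) (hV : V = x1 / w ^ 4) (hS : S ≤ 2 * w ^ 2)
    (hx1 : 0 ≤ x1) (hC1 : 0 ≤ C1) (hX : 0 ≤ X) (hε : 0 < ε) (hδ : 0 < δ)
    (hw2 : 16 * k * C1 * x1 / (ε * δ) ≤ w) (hN : δ * X / 4 ≤ N * LX) :
    k * (S * (X * (V * w * C1))) ≤ ε / 2 * (N * LX) := by
  rw [div_le_iff₀ (by positivity)] at hw2
  have h0 : 0 ≤ X * (V * w * C1) := by rw [hV]; positivity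
  calc k * (S * (X * (V * w * C1))) ≤ k * (2 * w ^ 2 * (X * (V * w * C1))) := by gcongr
    _ = 2 * k * C1 * x1 * X / w := by rw [hV]; field_simp
    _ ≤ ε * δ * X / 8 := by
        rw [div_le_div_iff₀ hw (by norm_num)]
        have := mul_le_mul_of_nonneg_left hw2 hX
        linarith
    _ = ε / 2 * (δ * X / 4) := by ring
    _ ≤ ε / 2 * (N * LX) := by gcongr

theorem t_PK (h1 : S_PJ) : S_PK := by
  intro k δ x0 ε hδ hε
  obtain ⟨x1, hx1⟩ : ∃ x1, x1 = max x0 1 := ⟨_, rfl⟩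
  have hx11 : 1 ≤ x1 := by rw [hx1]; exact le_max_right _ _
  have hx10 : x0 ≤ x1 := by rw [hx1]; exact le_max_left _ _
  have hx1pos : 0 < x1 := by linarith
  obtain ⟨r0, hlaw⟩ := h1 k δ x1 (ε / 2) hδ (by linarith) (by positivity)
  obtain ⟨K, y2, hrough⟩ := rough_primes
  obtain ⟨c, C, hc, hC, hV⟩ := V1_bounds
  obtain ⟨X2, hlow⟩ := primes_low δ hδ
  refine ⟨max (max r0 K) 2, ?_⟩
  intro r hr
  have hr2 : 2 ≤ r := (le_max_right _ _).trans hr
  have hrr0 : r0 ≤ r := (le_max_left _ _).trans ((le_max_left _ _).trans hr)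
  have hrK : K ≤ r := (le_max_right _ _).trans ((le_max_left _ _).trans hr)
  have hrr : (2 : ℝ) ≤ r := by exact_mod_cast hr2
  have hrpos : (0 : ℝ) < r := by linarith
  obtain ⟨X0, M0, hlaw⟩ := hlaw r hrr0
  have hXr : Tendsto (fun X : ℕ => (X : ℝ)) atTop atTop := tendsto_natCast_atTop_atTop
  have hpow2 : Tendsto (fun X : ℕ => (X : ℝ) ^ (1 / (2 * r : ℝ))) atTop atTop :=
    (tendsto_rpow_atTop (by positivity)).comp hXr
  have hlogX : Tendsto (fun X : ℕ => Real.log (X : ℝ)) atTop atTop :=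
    Real.tendsto_log_atTop.comp hXr
  have hk0 : (0 : ℝ) ≤ k := Nat.cast_nonneg k
  obtain ⟨C1, hC1⟩ : ∃ C1, C1 = 40 + 2 / c ^ 3 := ⟨_, rfl⟩
  have hC10 : 0 < C1 := by rw [hC1]; positivity
  obtain ⟨W0, hW0⟩ : ∃ W0, W0 = 16 * k * C1 * x1 / (ε * δ) + 1 := ⟨_, rfl⟩
  have hW01 : 1 ≤ W0 := by
    have : 0 ≤ 16 * k * C1 * x1 / (ε * δ) := by positivity
    rw [hW0]; linarith
  have hev : ∀ᶠ X : ℕ in atTop, ∀ Z Y : ℕ, X ≤ Z → Z + Y ≤ 2 * X → δ * X ≤ Y → ∀ M : ℕ,
      M * V1 ⌊(X : ℝ) ^ (1 / (r : ℝ))⌋₊ ≤ x0 →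
      ∀ (a : Fin k → ℕ) (c : Fin k → ℤ) (L : Fin k → ℕ), Win M a c L → ∀ A : Finset (Fin k → ℕ),
      |((((Ioc Z (Z + Y)).filter Nat.Prime).filter
          (fun n => (fun j => Nq ⌊(X : ℝ) ^ (1 / (r : ℝ))⌋₊ (a j) (c j) (L j) n) ∈ A)).card : ℝ) -
        ((Ioc Z (Z + Y)).filter Nat.Prime).card *
          ∑ v ∈ A, ∏ j, (Real.exp (-(L j * V1 ⌊(X : ℝ) ^ (1 / (r : ℝ))⌋₊)) *
          (L j * V1 ⌊(X : ℝ) ^ (1 / (r : ℝ))⌋₊) ^ v j / (v j).factorial)| ≤
        ε * ((Ioc Z (Z + Y)).filter Nat.Prime).card := by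
    filter_upwards [hpow2.eventually_ge_atTop ((y2 : ℝ) + 3), eventually_ge_atTop (X0 + X2 + 16),
      hlogX.eventually_ge_atTop (2 * r * (1 + C * ((M0 : ℝ) + 1) + C * W0 ^ 4)),
      logpow_rpow 1 (x1 / c + 1) 1 (by positivity) one_pos] with
      X hX1 hX16 hX3 hX4
    intro Z Y hXZ hZY hδY M hMx a cc L hWin A
    have hX16r : (16 : ℝ) ≤ X := by exact_mod_cast (by omega : 16 ≤ X)
    have hXpos : (0 : ℝ) < X := by linarith
    have hXone : (1 : ℝ) ≤ X := by linarith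
    have hy2r : (0 : ℝ) ≤ y2 := Nat.cast_nonneg _
    obtain ⟨hy1, hy2', hy3, hy4⟩ := level_low r hr2 X (by omega) (by linarith)
    have hlawX := hlaw X (by omega) Z Y hXZ hZY hδY
    obtain ⟨y, hy⟩ : ∃ y, y = ⌊(X : ℝ) ^ (1 / (r : ℝ))⌋₊ := ⟨_, rfl⟩
    rw [← hy] at hy1 hy2' hy3 hy4 hMx hlawX ⊢
    have hyr : (y2 : ℝ) + 3 ≤ y := hX1.trans hy1
    have hyy2 : y2 ≤ y := by
      have : (y2 : ℝ) ≤ y := by linarith
      exact_mod_cast this
    obtain ⟨hVlo, hVup⟩ := hV y hy4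
    have hV0 : 0 < V1 y := V1_pos y
    have hlX0 : 0 < Real.log X := Real.log_pos (by linarith)
    have hlogy : 0 < Real.log y := lt_of_lt_of_le (by positivity) hy2'
    have hM0r : (0 : ℝ) ≤ M0 := Nat.cast_nonneg _
    have hq1 : 0 ≤ C * ((M0 : ℝ) + 1) := by positivity
    have hq2 : 0 ≤ C * W0 ^ 4 := by positivity
    have hlogX1 : 1 + C * ((M0 : ℝ) + 1) + C * W0 ^ 4 ≤ Real.log y := by
      refine le_trans ?_ hy2'
      rw [le_div_iff₀ (by positivity)]
      linarith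
    have hyK : y ^ K ≤ X := by
      have h3 : ((y ^ K : ℕ) : ℝ) ≤ X := by
        push_cast
        calc (y : ℝ) ^ K ≤ ((X : ℝ) ^ (1 / (r : ℝ))) ^ K := by
              apply pow_le_pow_left₀ (Nat.cast_nonneg _)
              rw [hy]
              exact Nat.floor_le (by positivity)
          _ = (X : ℝ) ^ (1 / (r : ℝ) * K) := by
              rw [Real.rpow_mul hXpos.le, Real.rpow_natCast]
          _ ≤ (X : ℝ) ^ (1 : ℝ) := by
              apply Real.rpow_le_rpow_of_exponent_le hXone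
              rw [one_div, inv_mul_eq_div, div_le_iff₀ hrpos, one_mul]
              exact_mod_cast hrK
          _ = X := Real.rpow_one _
      exact_mod_cast h3
    -- the large window
    obtain ⟨M', hM'⟩ : ∃ M', M' = ⌊x1 / V1 y⌋₊ := ⟨_, rfl⟩
    have hq0 : 0 < x1 / V1 y := by positivity
    have hM'up : (M' : ℝ) ≤ x1 / V1 y := by rw [hM']; exact Nat.floor_le hq0.le
    have hMM' : M ≤ M' := by
      rw [hM']
      apply Nat.le_floor
      rw [le_div_iff₀ hV0]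
      exact hMx.trans hx10
    have hinvV : 1 / V1 y ≤ Real.log y / c := by
      rw [div_le_div_iff₀ hV0 hc, one_mul]
      rw [div_le_iff₀ hlogy] at hVlo
      linarith
    have hinvV' : Real.log y / C ≤ 1 / V1 y := by
      rw [div_le_div_iff₀ hC hV0, one_mul]
      rw [le_div_iff₀ hlogy] at hVup
      linarith
    have e2 : 1 / V1 y ≤ x1 / V1 y := by gcongr
    have hM0M' : M0 ≤ M' := by
      rw [hM']
      apply Nat.le_floor
      have e1 : (M0 : ℝ) + 1 ≤ Real.log y / C := by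
        rw [le_div_iff₀ hC]
        linarith
      linarith
    have hM'X : (M' : ℝ) < X := by
      have h2 : (M' : ℝ) ≤ x1 / c * Real.log X := by
        calc (M' : ℝ) ≤ x1 / V1 y := hM'up
          _ = x1 * (1 / V1 y) := by ring
          _ ≤ x1 * (Real.log y / c) := by gcongr
          _ ≤ x1 * (Real.log X / c) := by gcongr
          _ = x1 / c * Real.log X := by ring
      rw [pow_one, Real.rpow_one] at hX4
      linarith
    have hM'Xn : M' < X := by exact_mod_cast hM'X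
    have hM'x : M' * V1 y ≤ x1 := by rwa [← le_div_iff₀ hV0]
    have hWin' := win_mono hMM' hWin
    have hmain := hlawX M' hM0M' hM'x a cc L hWin' A
    -- the fourth root
    obtain ⟨w, hw⟩ : ∃ w, w = √(√(x1 / V1 y)) := ⟨_, rfl⟩
    have hw4 : w ^ 4 = x1 / V1 y := by
      rw [hw]
      have : (√(√(x1 / V1 y))) ^ 4 = ((√(√(x1 / V1 y))) ^ 2) ^ 2 := by ring
      rw [this, Real.sq_sqrt (Real.sqrt_nonneg _), Real.sq_sqrt hq0.le]
    have hw0' : 0 ≤ w := by rw [hw]; exact Real.sqrt_nonneg _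
    have hWq : W0 ^ 4 ≤ w ^ 4 := by
      rw [hw4]
      have e1 : W0 ^ 4 ≤ Real.log y / C := by
        rw [le_div_iff₀ hC]
        linarith
      linarith
    have hWw : W0 ≤ w := (pow_le_pow_iff_left₀ (by linarith) hw0' (by norm_num)).1 hWq
    have hw1 : 1 ≤ w := hW01.trans hWw
    have hw0 : 0 < w := by linarith
    have hVw : V1 y = x1 / w ^ 4 := by
      rw [hw4]
      field_simp
    have hV1 : V1 y ≤ 1 := by
      refine hVup.trans ?_
      rw [div_le_one hlogy]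
      have h3 : C ≤ C * ((M0 : ℝ) + 1) := le_mul_of_one_le_right hC.le (by linarith)
      linarith
    -- the difference
    classical
    have hdiff := card_diff ((Ioc Z (Z + Y)).filter Nat.Prime)
      (fun n => (fun j => Nq y (a j) (cc j) (L j) n) ∈ A)
      (fun n => (fun j => Nj y (a j) (cc j) (L j) n) ∈ A)
      (fun n => ∃ j, ∃ m ≤ Nat.sqrt M', 1 ≤ a j + m ∧ ∀ p ∈ pr y, ¬ p ∣ n + (a j + m)) (by
        intro n hn0 hn
        rw [mem_filter, mem_Ioc] at hn0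
        have e1 : (fun j => Nq y (a j) (cc j) (L j) n) = fun j => Nj y (a j) (cc j) (L j) n := by
          funext j
          refine nq_eq_nj (M := M') (hWin'.1 j).2.1 (by omega) ?_
          intro m hm hm1 hcon
          exact hn ⟨j, m, hm, hm1, hcon⟩
        simp only [e1])
    have hone : ∀ b : ℕ, 1 ≤ b → b ≤ 2 * M' → ((((Ioc Z (Z + Y)).filter Nat.Prime).filter
        (fun n => ∀ p ∈ pr y, ¬ p ∣ n + b)).card : ℝ) ≤ X * (V1 y * w * C1) / Real.log X := by
      intro b hb1 hb2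
      rw [le_div_iff₀ hlX0]
      refine (hrough X y hyy2 hyK Z Y b (by omega) hXZ hZY).trans ?_
      have hbw : (b : ℝ) ≤ 2 * w ^ 4 := by
        rw [hw4]
        have : (b : ℝ) ≤ 2 * M' := by exact_mod_cast hb2
        linarith
      have g1 := prod_rho y b hb1 hw1 hbw
      have g2 : ((2 * X : ℕ) : ℝ) / Real.log ((2 * X : ℕ) : ℝ) ^ 3 ≤ 2 * X * (V1 y / c ^ 3) := by
        have g3 : Real.log X ≤ Real.log ((2 * X : ℕ) : ℝ) :=
          Real.log_le_log hXpos (by push_cast; linarith)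
        have g4 : 1 / Real.log X ≤ V1 y / c := by
          rw [div_le_div_iff₀ hlX0 hc, one_mul]
          rw [div_le_iff₀ hlogy] at hVlo
          calc c ≤ V1 y * Real.log y := hVlo
            _ ≤ V1 y * Real.log X := by gcongr
        have g5 : (1 / Real.log X) ^ 3 ≤ V1 y / c ^ 3 := by
          calc (1 / Real.log X) ^ 3 ≤ (V1 y / c) ^ 3 := pow_le_pow_left₀ (by positivity) g4 3
            _ = V1 y ^ 3 / c ^ 3 := by rw [div_pow]
            _ ≤ V1 y / c ^ 3 := by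
                gcongr
                calc V1 y ^ 3 ≤ V1 y ^ 1 := pow_le_pow_of_le_one hV0.le hV1 (by norm_num)
                  _ = V1 y := pow_one _
        calc ((2 * X : ℕ) : ℝ) / Real.log ((2 * X : ℕ) : ℝ) ^ 3 ≤ ((2 * X : ℕ) : ℝ) / Real.log X ^ 3 := by
              gcongr
          _ = 2 * X * (1 / Real.log X) ^ 3 := by push_cast; rw [div_pow, one_pow]; ring
          _ ≤ 2 * X * (V1 y / c ^ 3) := by gcongr
      have g6 : V1 y / c ^ 3 ≤ V1 y * w / c ^ 3 := by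
        gcongr
        exact le_mul_of_one_le_right hV0.le hw1
      calc _ ≤ 4 * X * (V1 y * (10 * w)) + 2 * X * (V1 y / c ^ 3) := by gcongr
        _ ≤ 4 * X * (V1 y * (10 * w)) + 2 * X * (V1 y * w / c ^ 3) := by gcongr
        _ = X * (V1 y * w * C1) := by rw [hC1]; ring
    have hbad := bad_count' ((Ioc Z (Z + Y)).filter Nat.Prime) a y M' (X * (V1 y * w * C1) / Real.log X)
      (fun j => (hWin'.1 j).1) (by positivity) hone
    have hS : ((Nat.sqrt M' + 1 : ℕ) : ℝ) ≤ 2 * w ^ 2 := by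
      have e3 : ((Nat.sqrt M' : ℕ) : ℝ) ≤ w ^ 2 := by
        have e4 : ((Nat.sqrt M' : ℕ) : ℝ) * (Nat.sqrt M' : ℕ) ≤ M' := by
          exact_mod_cast Nat.sqrt_le M'
        rw [← pow_le_pow_iff_left₀ (Nat.cast_nonneg _) (by positivity) two_ne_zero, ← pow_mul]
        calc ((Nat.sqrt M' : ℕ) : ℝ) ^ 2 ≤ M' := by rw [sq]; exact e4
          _ ≤ x1 / V1 y := hM'up
          _ = w ^ (2 * 2) := by rw [← hw4]
      have e5 : 1 ≤ w ^ 2 := one_le_pow₀ hw1
      push_cast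
      linarith
    have hest := num_pk (k := (k : ℝ)) (S := ((Nat.sqrt M' + 1 : ℕ) : ℝ)) (w := w) (x1 := x1) (V := V1 y) (C1 := C1)
      (X := (X : ℝ)) (δ := δ) (ε := ε) (N := (((Ioc Z (Z + Y)).filter Nat.Prime).card : ℝ)) (LX := Real.log X)
      hk0 hw0 hVw hS hx1pos.le hC10.le hXpos.le hε hδ (by linarith)
      (hlow X (by omega) Z Y hXZ hZY hδY)
    have hfin : |((((Ioc Z (Z + Y)).filter Nat.Prime).filter
        (fun n => (fun j => Nq y (a j) (cc j) (L j) n) ∈ A)).card : ℝ) -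
        (((Ioc Z (Z + Y)).filter Nat.Prime).filter
        (fun n => (fun j => Nj y (a j) (cc j) (L j) n) ∈ A)).card| ≤
        ε / 2 * ((Ioc Z (Z + Y)).filter Nat.Prime).card := by
      refine hdiff.trans (hbad.trans ?_)
      rw [← mul_le_mul_iff_left₀ hlX0]
      calc (k : ℝ) * (((Nat.sqrt M' + 1 : ℕ) : ℝ) * (X * (V1 y * w * C1) / Real.log X)) * Real.log X =
          k * (((Nat.sqrt M' + 1 : ℕ) : ℝ) * (X * (V1 y * w * C1))) := by field_simp
        _ ≤ _ := hest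
        _ = _ := by ring
    have h9 := abs_sub_le ((((Ioc Z (Z + Y)).filter Nat.Prime).filter
      (fun n => (fun j => Nq y (a j) (cc j) (L j) n) ∈ A)).card : ℝ)
      ((((Ioc Z (Z + Y)).filter Nat.Prime).filter
        (fun n => (fun j => Nj y (a j) (cc j) (L j) n) ∈ A)).card : ℝ)
      (((Ioc Z (Z + Y)).filter Nat.Prime).card *
        ∑ v ∈ A, ∏ j, (Real.exp (-(L j * V1 y)) * (L j * V1 y) ^ v j / (v j).factorial))
    have hmain' : |((((Ioc Z (Z + Y)).filter Nat.Prime).filter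
        (fun n => (fun j => Nj y (a j) (cc j) (L j) n) ∈ A)).card : ℝ) -
        ((Ioc Z (Z + Y)).filter Nat.Prime).card *
        ∑ v ∈ A, ∏ j, (Real.exp (-(L j * V1 y)) * (L j * V1 y) ^ v j / (v j).factorial)| ≤
        ε / 2 * ((Ioc Z (Z + Y)).filter Nat.Prime).card := by
      convert hmain using 4
    have hgoal := h9.trans (add_le_add hfin hmain')
    refine le_trans (le_of_eq ?_) (hgoal.trans (le_of_eq (by ring)))
    congr!
  obtain ⟨X0, hX0⟩ := eventually_atTop.1 hev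
  exact ⟨X0, hX0⟩

end Pool.Agent.Y809.SQ3
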